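import Pool.Agent.Helper63_CNS.Main

/-!
# The equality `e_b = nc(∇_b) - 1` and complete intersections

For a cyclotomic numerical semigroup `S₁`, an element `y ≠ 0` of `S₁` which is not a minimal
generator and an integer `m ≥ 2` prime to `y`, the gluing `S = m S₁ + y ℕ` is again cyclotomic,
`m y` is a Betti element of `S`, and the defect `e_b - (nc(∇_b) - 1)` of `S₁` at `b` is the defect of
`S` at `m b`, for all `b`. So the equality at the Betti elements of all cyclotomic numerical
semigroups gives the equality at all elements, and then the complete intersection property by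
counting the exponents.
-/

set_option autoImplicit false

namespace Pool.Agent.Results.MP_b8fed3_al.BettiIffCI

open Pool.Agent.CNS

/-- The equality of `Q1` for all cyclotomic numerical semigroups, the same equality for those with
the Hilbert series of a complete intersection, and the statement that every cyclotomic numerical
semigroup is a complete intersection with `e_b = nc(∇_b) - 1` for all nonzero `b` which are not
minimal generators, are equivalent. -/
theorem result : List.TFAE [
    ∀ S : AddSubmonoid ℕ, NumSgp S → IsCyc S → ∀ b ∈ betti S, expSeq S b = (nc S b : ℤ) - 1,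
    ∀ S : AddSubmonoid ℕ, NumSgp S → IsCyc S → HilbCI S →
      ∀ b ∈ betti S, expSeq S b = (nc S b : ℤ) - 1,
    ∀ S : AddSubmonoid ℕ, NumSgp S → IsCyc S →
      IsCI S ∧ ∀ b ∈ S, b ≠ 0 → b ∉ atoms S → expSeq S b = (nc S b : ℤ) - 1] := by
  tfae_have 1 → 2 := fun h S hS hc _ => h S hS hc
  tfae_have 2 → 3 := fun h S hS hc => (main h S hS hc).symm
  tfae_have 3 → 1 := by
    intro h S hS hc b hb
    have h1 := hb.2
    refine (h S hS hc).2 b hb.1 ?_ ?_
    · intro h2
      have h3 := nc_le_one (S := S) (b := b) (Or.inr (Or.inl h2))
      omega
    · intro h2
      have h3 := nc_le_one (S := S) (b := b) (Or.inr (Or.inr h2))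
      omega
  tfae_finish

end Pool.Agent.Results.MP_b8fed3_al.BettiIffCI
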